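import Pool.Agent.H11.NS.Targets

/-!
# Module EM of the board ns_modules (MP_9b2842_al)
-/

set_option autoImplicit false
set_option linter.unusedVariables false

open Equiv (Perm)

namespace Pool.Agent.H67.NS.EM

open Pool.Agent.H11.NS

/-- conjugation transports the fixed vector implication -/
theorem fix_conj {G F W : Type} [Group G] [Field F] [AddCommGroup W] [Module F W]
    (ρ : G →* Module.End F W) (x k f x' k' : G) (h : ∀ v, ρ x v = v → ρ k v = v)
    (hx : f * x * f⁻¹ = x') (hk : f * k * f⁻¹ = k') : ∀ v, ρ x' v = v → ρ k' v = v := by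
  intro v hv
  have h1 : ρ x (ρ f⁻¹ v) = ρ f⁻¹ v := by
    have e : x * f⁻¹ = f⁻¹ * x' := by rw [← hx]; group
    calc ρ x (ρ f⁻¹ v) = ρ (x * f⁻¹) v := by rw [map_mul]; rfl
      _ = ρ (f⁻¹ * x') v := by rw [e]
      _ = ρ f⁻¹ (ρ x' v) := by rw [map_mul]; rfl
      _ = ρ f⁻¹ v := by rw [hv]
  have h2 := h _ h1
  have e2 : k' = f * (k * f⁻¹) := by rw [← hk]; group
  calc ρ k' v = ρ f (ρ k (ρ f⁻¹ v)) := by rw [e2, map_mul, map_mul]; rfl
    _ = ρ f (ρ f⁻¹ v) := by rw [h2]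
    _ = ρ (f * f⁻¹) v := by rw [map_mul]; rfl
    _ = v := by rw [mul_inv_cancel, map_one]; rfl

theorem fix_mul {G F W : Type} [Group G] [Field F] [AddCommGroup W] [Module F W]
    (ρ : G →* Module.End F W) (k l : G) (v : W) (hk : ρ k v = v) (hl : ρ l v = v) :
    ρ (k * l) v = v := by
  calc ρ (k * l) v = ρ k (ρ l v) := by rw [map_mul]; rfl
    _ = v := by rw [hl, hk]

theorem fix_inv {G F W : Type} [Group G] [Field F] [AddCommGroup W] [Module F W]
    (ρ : G →* Module.End F W) (k : G) (v : W) (hk : ρ k v = v) : ρ k⁻¹ v = v := by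
  calc ρ k⁻¹ v = ρ k⁻¹ (ρ k v) := by rw [hk]
    _ = ρ (k⁻¹ * k) v := by rw [map_mul]; rfl
    _ = v := by rw [inv_mul_cancel, map_one]; rfl

/-- the group theoretic core of the module -/
theorem core (hEI : T_EI) {G F W : Type} [Group G] [Field F] [AddCommGroup W] [Module F W]
    (ω : F) (hω3 : ω ^ 3 = 1) (hω : ω ≠ 1) (h3 : (3 : F) ≠ 0) (ρ : G →* Module.End F W)
    (s : Fin 4 → G) (b : G) (hs3 : ∀ i, s i ^ 3 = 1) (hb3 : b ^ 3 = 1)
    (hss : ∀ i j, Commute (s i) (s j)) (hsb : ∀ i, Commute (s i) b)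
    (h01 : ∀ v, ρ (s 0 * s 1 * s 2 * s 3 * b) v = v → ρ (s 0 * (s 1)⁻¹) v = v)
    (hsw : ∀ k : Fin 4, k = 2 ∨ k = 3 → ∃ y : G, y * s 0 * y⁻¹ = s 0 ∧ y * s 1 * y⁻¹ = s k ∧
      y * (s 0 * s 1 * s 2 * s 3 * b) * y⁻¹ = s 0 * s 1 * s 2 * s 3 * b)
    (hfl : ∀ k : Fin 4, ∃ f : G, f * s k * f⁻¹ = (s k)⁻¹ ∧
      (∀ i, i ≠ k → f * s i * f⁻¹ = s i) ∧ f * b * f⁻¹ = b) :
    ∀ v, ρ (s 0) (ρ (s 1) v) - ρ (s 0) v - ρ (s 1) v + v = 0 := by
  have c0 : ∀ k : Fin 4, ∀ v, ρ (s 0 * s 1 * s 2 * s 3 * b) v = v →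
      ρ (s 0 * (s k)⁻¹) v = v := by
    intro k
    have hk : k = 0 ∨ k = 1 ∨ (k = 2 ∨ k = 3) := by
      fin_cases k <;> simp
    rcases hk with rfl | rfl | hk
    · intro v hv; rw [mul_inv_cancel, map_one]; rfl
    · exact h01
    · obtain ⟨y, hy0, hy1, hya⟩ := hsw k hk
      refine fix_conj ρ _ _ y _ _ h01 hya ?_
      rw [← hy1]
      nth_rewrite 2 [← hy0]
      group
  have c1 : ∀ i j : Fin 4, ∀ v, ρ (s 0 * s 1 * s 2 * s 3 * b) v = v →
      ρ (s i * (s j)⁻¹) v = v := by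
    intro i j v hv
    have e : s i * (s j)⁻¹ = (s 0 * (s i)⁻¹)⁻¹ * (s 0 * (s j)⁻¹) := by group
    rw [e]
    exact fix_mul ρ _ _ v (fix_inv ρ _ v (c0 i v hv)) (c0 j v hv)
  have hgl : ∀ (ε : Fin 4 → ℕ), (∀ i, ε i = 1 ∨ ε i = 2) → ∀ k : Fin 4, ∃ g : MulAut G,
      (∃ f : G, g = MulAut.conj f) ∧ g (s k) = s k ^ ε k ∧ (∀ i, i ≠ k → g (s i) = s i) ∧
      g b = b := by
    intro ε hε k
    rcases hε k with h | h
    · refine ⟨1, ⟨1, by rw [map_one]⟩, ?_, ?_, ?_⟩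
      · rw [h, pow_one]; rfl
      · intro i _; rfl
      · rfl
    · obtain ⟨f, hf1, hf2, hf3⟩ := hfl k
      refine ⟨MulAut.conj f, ⟨f, rfl⟩, ?_, ?_, ?_⟩
      · rw [MulAut.conj_apply, hf1, h]
        have h3 := hs3 k
        rw [pow_succ] at h3
        exact inv_eq_of_mul_eq_one_left h3
      · intro i hi
        rw [MulAut.conj_apply, hf2 i hi]
      · rw [MulAut.conj_apply, hf3]
  refine hEI F W ω hω3 hω h3 (fun i => ρ (s i)) (ρ b) ?_ ?_ ?_ ?_ ?_
  · intro i; rw [← map_pow, hs3, map_one]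
  · rw [← map_pow, hb3, map_one]
  · intro i j; exact (hss i j).map ρ
  · intro i; exact (hsb i).map ρ
  · intro ε hε v hv i j
    obtain ⟨g0, ⟨f0, hf0⟩, g00, g01, g0b⟩ := hgl ε hε 0
    obtain ⟨g1, ⟨f1, hf1⟩, g11, g1i, g1b⟩ := hgl ε hε 1
    obtain ⟨g2, ⟨f2, hf2⟩, g22, g2i, g2b⟩ := hgl ε hε 2
    obtain ⟨g3, ⟨f3, hf3⟩, g33, g3i, g3b⟩ := hgl ε hε 3
    have hg : ∀ x, (f0 * f1 * f2 * f3) * x * (f0 * f1 * f2 * f3)⁻¹ = g0 (g1 (g2 (g3 x))) := by
      intro x
      rw [hf0, hf1, hf2, hf3]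
      simp only [MulAut.conj_apply]
      group
    have hgs : ∀ i, g0 (g1 (g2 (g3 (s i)))) = s i ^ ε i := by
      intro i
      have hi : i = 0 ∨ i = 1 ∨ i = 2 ∨ i = 3 := by fin_cases i <;> simp
      rcases hi with rfl | rfl | rfl | rfl
      · rw [g3i 0 (by decide), g2i 0 (by decide), g1i 0 (by decide), g00]
      · rw [g3i 1 (by decide), g2i 1 (by decide), g11, map_pow, g01 1 (by decide)]
      · rw [g3i 2 (by decide), g22, map_pow, g1i 2 (by decide), map_pow, g01 2 (by decide)]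
      · rw [g33, map_pow, g2i 3 (by decide), map_pow, g1i 3 (by decide), map_pow,
          g01 3 (by decide)]
    have hgb : g0 (g1 (g2 (g3 b))) = b := by rw [g3b, g2b, g1b, g0b]
    have hfix : ρ (s 0 ^ ε 0 * s 1 ^ ε 1 * s 2 ^ ε 2 * s 3 ^ ε 3 * b) v = v := by
      rw [map_mul, map_mul, map_mul, map_mul, map_pow, map_pow, map_pow, map_pow]
      exact hv
    have key : ρ (s i ^ ε i * (s j ^ ε j)⁻¹) v = v := by
      refine fix_conj ρ (s 0 * s 1 * s 2 * s 3 * b) (s i * (s j)⁻¹) (f0 * f1 * f2 * f3) _ _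
        (c1 i j) ?_ ?_ v hfix
      · rw [hg, map_mul, map_mul, map_mul, map_mul, map_mul, map_mul, map_mul, map_mul, map_mul,
          map_mul, map_mul, map_mul, map_mul, map_mul, map_mul, map_mul, hgs, hgs, hgs, hgs, hgb]
      · rw [hg, map_mul, map_mul, map_mul, map_mul, map_inv, map_inv, map_inv, map_inv, hgs, hgs]
    have hcomm : s i ^ ε i * (s j ^ ε j)⁻¹ = (s j ^ ε j)⁻¹ * s i ^ ε i :=
      ((hss i j).pow_pow (ε i) (ε j)).inv_right.eq
    rw [hcomm] at key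
    show (ρ (s i) ^ ε i) v = (ρ (s j) ^ ε j) v
    rw [← map_pow, ← map_pow]
    calc ρ (s i ^ ε i) v = ρ (s j ^ ε j * ((s j ^ ε j)⁻¹ * s i ^ ε i)) v := by
          rw [mul_inv_cancel_left]
      _ = ρ (s j ^ ε j) (ρ ((s j ^ ε j)⁻¹ * s i ^ ε i) v) := by rw [map_mul]; rfl
      _ = ρ (s j ^ ε j) v := by rw [key]

theorem conj_two {G : Type} [Group G] (w1 w2 c c' c'' : G) (h2 : w2 * c * w2⁻¹ = c')
    (h1 : w1 * c' * w1⁻¹ = c'') : (w1 * w2) * c * (w1 * w2)⁻¹ = c'' := by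
  rw [← h1, ← h2]; group

theorem conj_self {G : Type} [Group G] (w c : G) (h : w * c = c * w) : w * c * w⁻¹ = c := by
  rw [h, mul_inv_cancel_right]

theorem pf_em : T_EI → T_CF → T_SWX → T_SWY → T_EM := by
  intro hEI hCF hSWX hSWY Ω _ _ F W _ _ _ ω hω3 hω h3 ρ a ha3 hsupp σ τ hσ hτ hστ hev hfix
  have ha3' : (a : Perm Ω) ^ 3 = 1 := by
    have := congrArg (fun x : alternatingGroup Ω => (x : Perm Ω)) ha3
    simpa using this
  obtain ⟨hF3, hFcard, hFT⟩ := hCF Ω (a : Perm Ω) ha3'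
  have hcard : 6 ≤ (a : Perm Ω).cycleFactorsFinset.card := by omega
  obtain ⟨c2, hc2, hc2n⟩ := Finset.exists_mem_notMem_of_card_lt_card
    (s := {σ, τ}) (t := (a : Perm Ω).cycleFactorsFinset)
    (lt_of_le_of_lt Finset.card_le_two (by omega))
  obtain ⟨c3, hc3, hc3n⟩ := Finset.exists_mem_notMem_of_card_lt_card
    (s := {σ, τ, c2}) (t := (a : Perm Ω).cycleFactorsFinset)
    (lt_of_le_of_lt Finset.card_le_three (by omega))
  obtain ⟨c4, hc4, hc4n⟩ := Finset.exists_mem_notMem_of_card_lt_card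
    (s := {σ, τ, c2, c3}) (t := (a : Perm Ω).cycleFactorsFinset)
    (lt_of_le_of_lt Finset.card_le_four (by omega))
  obtain ⟨c5, hc5, hc5n⟩ := Finset.exists_mem_notMem_of_card_lt_card
    (s := {σ, τ, c2, c3, c4}) (t := (a : Perm Ω).cycleFactorsFinset)
    (lt_of_le_of_lt Finset.card_le_five (by omega))
  simp only [Finset.mem_insert, Finset.mem_singleton, not_or] at hc2n hc3n hc4n hc5n
  obtain ⟨n20, n21⟩ := hc2n
  obtain ⟨n30, n31, n32⟩ := hc3n
  obtain ⟨n40, n41, n42, n43⟩ := hc4n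
  obtain ⟨n50, n51, n52, n53, n54⟩ := hc5n
  have hpd := Equiv.Perm.cycleFactorsFinset_pairwise_disjoint (a : Perm Ω)
  have hdis : ∀ x ∈ (a : Perm Ω).cycleFactorsFinset, ∀ y ∈ (a : Perm Ω).cycleFactorsFinset,
      x ≠ y → Equiv.Perm.Disjoint x y := fun x hx y hy hxy => hpd hx hy hxy
  obtain ⟨b0, hb03, hb0d, -, hb0l⟩ := hFT {σ, τ, c2, c3, c4, c5} (by
    intro x hx
    simp only [Finset.mem_insert, Finset.mem_singleton] at hx
    rcases hx with rfl | rfl | rfl | rfl | rfl | rfl <;> assumption)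
  have hab := hb0l [σ, τ, c2, c3, c4, c5] (by
    simp only [List.nodup_cons, List.mem_cons, List.not_mem_nil, or_false, not_or,
      List.nodup_nil, not_false_eq_true, and_true]
    refine ⟨⟨hστ, Ne.symm n20, Ne.symm n30, Ne.symm n40, Ne.symm n50⟩,
      ⟨Ne.symm n21, Ne.symm n31, Ne.symm n41, Ne.symm n51⟩,
      ⟨Ne.symm n32, Ne.symm n42, Ne.symm n52⟩, ⟨Ne.symm n43, Ne.symm n53⟩, Ne.symm n54⟩) (by
    simp only [List.toFinset_cons, List.toFinset_nil]
    rfl)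
  simp only [List.prod_cons, List.prod_nil, mul_one] at hab
  have hbσ := hb0d σ (by simp)
  have hbτ := hb0d τ (by simp)
  have hb2 := hb0d c2 (by simp)
  have hb3 := hb0d c3 (by simp)
  have hb4 := hb0d c4 (by simp)
  have hb5 := hb0d c5 (by simp)
  have d01 := hdis σ hσ τ hτ hστ
  have d20 := hdis c2 hc2 σ hσ n20
  have d21 := hdis c2 hc2 τ hτ n21
  have d30 := hdis c3 hc3 σ hσ n30
  have d31 := hdis c3 hc3 τ hτ n31
  have d32 := hdis c3 hc3 c2 hc2 n32
  have d40 := hdis c4 hc4 σ hσ n40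
  have d41 := hdis c4 hc4 τ hτ n41
  have d42 := hdis c4 hc4 c2 hc2 n42
  have d43 := hdis c4 hc4 c3 hc3 n43
  have d50 := hdis c5 hc5 σ hσ n50
  have d51 := hdis c5 hc5 τ hτ n51
  have d52 := hdis c5 hc5 c2 hc2 n52
  have d53 := hdis c5 hc5 c3 hc3 n53
  have d54 := hdis c5 hc5 c4 hc4 n54
  have t0 := hF3 σ hσ
  have t1 := hF3 τ hτ
  have t2 := hF3 c2 hc2
  have t3 := hF3 c3 hc3
  have t4 := hF3 c4 hc4
  have t5 := hF3 c5 hc5
  have hb0e : b0 ∈ alternatingGroup Ω := by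
    rw [Equiv.Perm.mem_alternatingGroup]
    have h := congrArg Equiv.Perm.sign hb03
    rw [map_pow, map_one] at h
    rcases Int.units_eq_one_or (Equiv.Perm.sign b0) with h1 | h1
    · exact h1
    · rw [h1] at h; exact absurd h (by decide)
  obtain ⟨w, hws, hww, hw45, hw54, hwc⟩ := hSWX Ω c4 c5 t4 t5 d54.symm
  have hw0 := conj_self w σ (hwc σ d40.symm d50.symm)
  have hw1 := conj_self w τ (hwc τ d41.symm d51.symm)
  have hw2 := conj_self w c2 (hwc c2 d42.symm d52.symm)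
  have hw3 := conj_self w c3 (hwc c3 d43.symm d53.symm)
  have hwb := conj_self w b0 (hwc b0 hb4 hb5)
  have comm45 : c5 * c4 = c4 * c5 := d54.commute.eq
  -- elements of the alternating group
  set s : Fin 4 → alternatingGroup Ω := ![⟨σ, t0.mem_alternatingGroup⟩,
    ⟨τ, t1.mem_alternatingGroup⟩, ⟨c2, t2.mem_alternatingGroup⟩,
    ⟨c3, t3.mem_alternatingGroup⟩] with hs
  set b : alternatingGroup Ω := ⟨c4 * c5 * b0, (alternatingGroup Ω).mul_mem
    ((alternatingGroup Ω).mul_mem t4.mem_alternatingGroup t5.mem_alternatingGroup) hb0e⟩ with hb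
  have s0 : ((s 0 : alternatingGroup Ω) : Perm Ω) = σ := rfl
  have s1 : ((s 1 : alternatingGroup Ω) : Perm Ω) = τ := rfl
  have s2 : ((s 2 : alternatingGroup Ω) : Perm Ω) = c2 := rfl
  have s3 : ((s 3 : alternatingGroup Ω) : Perm Ω) = c3 := rfl
  have sb : ((b : alternatingGroup Ω) : Perm Ω) = c4 * c5 * b0 := rfl
  have haeq : a = s 0 * s 1 * s 2 * s 3 * b := by
    apply Subtype.ext
    rw [hab]
    show _ = σ * τ * c2 * c3 * (c4 * c5 * b0)
    group
  have hfin4 : ∀ i : Fin 4, i = 0 ∨ i = 1 ∨ i = 2 ∨ i = 3 := by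
    intro i; fin_cases i <;> simp
  have hp3 : ∀ x : Perm Ω, x.IsThreeCycle → x ^ 3 = 1 := by
    intro x hx
    have := hx.orderOf
    rw [← this]; exact pow_orderOf_eq_one x
  refine ⟨s 0, s 1, t0, t1, d01, ?_⟩
  have wconjb : ∀ F0 : Perm Ω, F0 * c4 = c4 * F0 → F0 * c5 = c5 * F0 → F0 * b0 = b0 * F0 →
      (F0 * w) * (c4 * c5 * b0) * (F0 * w)⁻¹ = c4 * c5 * b0 := by
    intro F0 h4 h5 h0
    refine conj_two F0 w _ (c4 * c5 * b0) _ ?_ ?_
    · calc w * (c4 * c5 * b0) * w⁻¹ = (w * c4 * w⁻¹) * (w * c5 * w⁻¹) * (w * b0 * w⁻¹) := by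
            group
        _ = c4 * c5 * b0 := by rw [hw45, hw54, hwb, comm45]
    · apply conj_self
      rw [← mul_assoc, ← mul_assoc, h4, mul_assoc c4, h5, mul_assoc, mul_assoc, h0]
      group
  refine core hEI ω hω3 hω h3 ρ s b ?_ ?_ ?_ ?_ ?_ ?_ ?_
  · intro i
    apply Subtype.ext
    rcases hfin4 i with rfl | rfl | rfl | rfl
    · exact hp3 σ t0
    · exact hp3 τ t1
    · exact hp3 c2 t2
    · exact hp3 c3 t3
  · apply Subtype.ext
    show (c4 * c5 * b0) ^ 3 = 1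
    have e1 : Commute (c4 * c5) b0 := (hb4.symm.commute).mul_left (hb5.symm.commute)
    rw [e1.mul_pow, (d54.symm.commute).mul_pow, hp3 c4 t4, hp3 c5 t5, hb03]
    simp
  · intro i j
    have hc : ∀ x y : Perm Ω, Equiv.Perm.Disjoint x y → x * y = y * x :=
      fun x y h => h.commute.eq
    apply Subtype.ext
    show ((s i : alternatingGroup Ω) : Perm Ω) * (s j : alternatingGroup Ω)
      = ((s j : alternatingGroup Ω) : Perm Ω) * (s i : alternatingGroup Ω)
    rcases hfin4 i with rfl | rfl | rfl | rfl <;> rcases hfin4 j with rfl | rfl | rfl | rfl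
    · rfl
    · exact hc _ _ d01
    · exact hc _ _ d20.symm
    · exact hc _ _ d30.symm
    · exact hc _ _ d01.symm
    · rfl
    · exact hc _ _ d21.symm
    · exact hc _ _ d31.symm
    · exact hc _ _ d20
    · exact hc _ _ d21
    · rfl
    · exact hc _ _ d32.symm
    · exact hc _ _ d30
    · exact hc _ _ d31
    · exact hc _ _ d32
    · rfl
  · intro i
    apply Subtype.ext
    show ((s i : alternatingGroup Ω) : Perm Ω) * (c4 * c5 * b0)
      = (c4 * c5 * b0) * (s i : alternatingGroup Ω)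
    have gen : ∀ x : Perm Ω, Equiv.Perm.Disjoint c4 x → Equiv.Perm.Disjoint c5 x →
        Equiv.Perm.Disjoint b0 x → x * (c4 * c5 * b0) = (c4 * c5 * b0) * x := by
      intro x h4 h5 h0
      exact (((h4.symm.commute).mul_right (h5.symm.commute)).mul_right (h0.symm.commute)).eq
    rcases hfin4 i with rfl | rfl | rfl | rfl
    · exact gen _ d40 d50 hbσ
    · exact gen _ d41 d51 hbτ
    · exact gen _ d42 d52 hb2
    · exact gen _ d43 d53 hb3
  · intro v hv
    rw [← haeq] at hv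
    have := hfix v hv
    have e : (⟨σ * τ⁻¹, hev⟩ : alternatingGroup Ω) = s 0 * (s 1)⁻¹ := rfl
    rw [← e]
    exact this
  · intro k hk
    have c12 : c2 * τ = τ * c2 := d21.commute.eq
    have c13 : c3 * τ = τ * c3 := d31.commute.eq
    have c23 : c3 * c2 = c2 * c3 := d32.commute.eq
    rcases hk with rfl | rfl
    · obtain ⟨u, hus, huu, hu12, hu21, huc⟩ := hSWX Ω τ c2 t1 t2 d21.symm
      have hu0 := conj_self u σ (huc σ d01 d20.symm)
      have hu3 := conj_self u c3 (huc c3 d31 d32)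
      have hu4 := huc c4 d41 d42
      have hu5 := huc c5 d51 d52
      have hub := huc b0 hbτ hb2
      have hmem : u * w ∈ alternatingGroup Ω := by
        rw [Equiv.Perm.mem_alternatingGroup, map_mul, hus, hws]; decide
      have y0 : (u * w) * σ * (u * w)⁻¹ = σ := conj_two u w σ σ σ hw0 hu0
      have y1 : (u * w) * τ * (u * w)⁻¹ = c2 := conj_two u w τ τ c2 hw1 hu12
      have y2 : (u * w) * c2 * (u * w)⁻¹ = τ := conj_two u w c2 c2 τ hw2 hu21
      have y3 : (u * w) * c3 * (u * w)⁻¹ = c3 := conj_two u w c3 c3 c3 hw3 hu3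
      have yb := wconjb u hu4 hu5 hub
      refine ⟨⟨u * w, hmem⟩, Subtype.ext y0, Subtype.ext y1, Subtype.ext ?_⟩
      show (u * w) * (σ * τ * c2 * c3 * (c4 * c5 * b0)) * (u * w)⁻¹
        = σ * τ * c2 * c3 * (c4 * c5 * b0)
      generalize c4 * c5 * b0 = q at yb
      generalize u * w = y at y0 y1 y2 y3 yb
      calc y * (σ * τ * c2 * c3 * q) * y⁻¹
          = (y * σ * y⁻¹) * (y * τ * y⁻¹) * (y * c2 * y⁻¹) * (y * c3 * y⁻¹) * (y * q * y⁻¹) := by
            group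
        _ = σ * c2 * τ * c3 * q := by rw [y0, y1, y2, y3, yb]
        _ = σ * τ * c2 * c3 * q := by rw [mul_assoc σ, c12, ← mul_assoc]
    · obtain ⟨u, hus, huu, hu12, hu21, huc⟩ := hSWX Ω τ c3 t1 t3 d31.symm
      have hu0 := conj_self u σ (huc σ d01 d30.symm)
      have hu3 := conj_self u c2 (huc c2 d21 d32.symm)
      have hu4 := huc c4 d41 d43
      have hu5 := huc c5 d51 d53
      have hub := huc b0 hbτ hb3
      have hmem : u * w ∈ alternatingGroup Ω := by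
        rw [Equiv.Perm.mem_alternatingGroup, map_mul, hus, hws]; decide
      have y0 : (u * w) * σ * (u * w)⁻¹ = σ := conj_two u w σ σ σ hw0 hu0
      have y1 : (u * w) * τ * (u * w)⁻¹ = c3 := conj_two u w τ τ c3 hw1 hu12
      have y2 : (u * w) * c2 * (u * w)⁻¹ = c2 := conj_two u w c2 c2 c2 hw2 hu3
      have y3 : (u * w) * c3 * (u * w)⁻¹ = τ := conj_two u w c3 c3 τ hw3 hu21
      have yb := wconjb u hu4 hu5 hub
      refine ⟨⟨u * w, hmem⟩, Subtype.ext y0, Subtype.ext y1, Subtype.ext ?_⟩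
      show (u * w) * (σ * τ * c2 * c3 * (c4 * c5 * b0)) * (u * w)⁻¹
        = σ * τ * c2 * c3 * (c4 * c5 * b0)
      generalize c4 * c5 * b0 = q at yb
      generalize u * w = y at y0 y1 y2 y3 yb
      calc y * (σ * τ * c2 * c3 * q) * y⁻¹
          = (y * σ * y⁻¹) * (y * τ * y⁻¹) * (y * c2 * y⁻¹) * (y * c3 * y⁻¹) * (y * q * y⁻¹) := by
            group
        _ = σ * c3 * c2 * τ * q := by rw [y0, y1, y2, y3, yb]
        _ = σ * (c3 * c2 * τ) * q := by group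
        _ = σ * (τ * c2 * c3) * q := by
            have e : c3 * c2 * τ = τ * c2 * c3 := by rw [c23, mul_assoc, c13, ← mul_assoc, c12]
            rw [e]
        _ = σ * τ * c2 * c3 * q := by group
  · intro k
    have key : ∀ x : Perm Ω, x.IsThreeCycle → w * x * w⁻¹ = x → Equiv.Perm.Disjoint c4 x →
        Equiv.Perm.Disjoint c5 x → Equiv.Perm.Disjoint b0 x → ∃ f : Perm Ω,
        f ∈ alternatingGroup Ω ∧ f * x * f⁻¹ = x⁻¹ ∧
        (∀ z : Perm Ω, Equiv.Perm.Disjoint z x → w * z * w⁻¹ = z → f * z * f⁻¹ = z) ∧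
        f * (c4 * c5 * b0) * f⁻¹ = c4 * c5 * b0 := by
      intro x hx hwx h4 h5 h0
      obtain ⟨g, hgs, hgg, hgx, hgc⟩ := hSWY Ω x hx
      refine ⟨g * w, ?_, conj_two g w x x _ hwx hgx, ?_, ?_⟩
      · rw [Equiv.Perm.mem_alternatingGroup, map_mul, hgs, hws]; decide
      · intro z hz hwz
        exact conj_two g w z z z hwz (conj_self g z (hgc z hz))
      · exact wconjb g (hgc c4 h4) (hgc c5 h5) (hgc b0 h0)
    rcases hfin4 k with rfl | rfl | rfl | rfl
    · obtain ⟨f, hfm, hf1, hf2, hf3⟩ := key σ t0 hw0 d40 d50 hbσ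
      refine ⟨⟨f, hfm⟩, Subtype.ext hf1, ?_, Subtype.ext hf3⟩
      intro i hi
      apply Subtype.ext
      rcases hfin4 i with rfl | rfl | rfl | rfl
      · exact absurd rfl hi
      · exact hf2 τ d01.symm hw1
      · exact hf2 c2 d20 hw2
      · exact hf2 c3 d30 hw3
    · obtain ⟨f, hfm, hf1, hf2, hf3⟩ := key τ t1 hw1 d41 d51 hbτ
      refine ⟨⟨f, hfm⟩, Subtype.ext hf1, ?_, Subtype.ext hf3⟩
      intro i hi
      apply Subtype.ext
      rcases hfin4 i with rfl | rfl | rfl | rfl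
      · exact hf2 σ d01 hw0
      · exact absurd rfl hi
      · exact hf2 c2 d21 hw2
      · exact hf2 c3 d31 hw3
    · obtain ⟨f, hfm, hf1, hf2, hf3⟩ := key c2 t2 hw2 d42 d52 hb2
      refine ⟨⟨f, hfm⟩, Subtype.ext hf1, ?_, Subtype.ext hf3⟩
      intro i hi
      apply Subtype.ext
      rcases hfin4 i with rfl | rfl | rfl | rfl
      · exact hf2 σ d20.symm hw0
      · exact hf2 τ d21.symm hw1
      · exact absurd rfl hi
      · exact hf2 c3 d32 hw3
    · obtain ⟨f, hfm, hf1, hf2, hf3⟩ := key c3 t3 hw3 d43 d53 hb3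
      refine ⟨⟨f, hfm⟩, Subtype.ext hf1, ?_, Subtype.ext hf3⟩
      intro i hi
      apply Subtype.ext
      rcases hfin4 i with rfl | rfl | rfl | rfl
      · exact hf2 σ d30.symm hw0
      · exact hf2 τ d31.symm hw1
      · exact hf2 c2 d32.symm hw2
      · exact absurd rfl hi

end Pool.Agent.H67.NS.EM
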