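import Pool.Agent.H11.NS.Targets

/-!
# Module KA1 of the board ns_modules (MP_9b2842_al)
-/

set_option autoImplicit false
set_option linter.unusedVariables false

open Equiv (Perm)

namespace Pool.Agent.H67.NS

open Pool.Agent.H11.NS

theorem pow3_eq_one {Ω : Type} [Fintype Ω] [DecidableEq Ω] (s : Perm Ω)
    (hs : s.IsThreeCycle) : s ^ 3 = 1 := by
  rw [← hs.orderOf]; exact pow_orderOf_eq_one s

theorem pow_mod3 {Ω : Type} [Fintype Ω] [DecidableEq Ω] (s : Perm Ω)
    (hs : s.IsThreeCycle) (i : ℕ) : s ^ (i % 3) = s ^ i := by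
  conv_rhs => rw [← Nat.div_add_mod i 3, pow_add, pow_mul, pow3_eq_one s hs, one_pow, one_mul]

/-- a permutation commuting with a three cycle acts on its support as a power of it -/
theorem factor_pow {Ω : Type} [Fintype Ω] [DecidableEq Ω] (h s : Perm Ω)
    (hs : s.IsThreeCycle) (hc : h * s = s * h) :
    ∃ k < 3, ∀ y ∈ s.support, h y = (s ^ k) y := by
  have hcyc := hs.isCycle
  obtain ⟨y0, hy0⟩ : s.support.Nonempty := by
    rw [← Finset.card_pos, hs.card_support]; norm_num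
  have happ : ∀ z, h (s z) = s (h z) := fun z => by
    rw [← Equiv.Perm.mul_apply, hc, Equiv.Perm.mul_apply]
  have happn : ∀ (j : ℕ) (z : Ω), h ((s ^ j) z) = (s ^ j) (h z) := by
    intro j
    induction j with
    | zero => intro z; simp
    | succ j ih =>
      intro z
      rw [pow_succ', Equiv.Perm.mul_apply, happ, ih, Equiv.Perm.mul_apply]
  have hh0 : h y0 ∈ s.support := by
    rw [Equiv.Perm.mem_support, ← happ]
    intro hcon
    exact (Equiv.Perm.mem_support.mp hy0) (h.injective hcon)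
  obtain ⟨i, hi⟩ := hcyc.exists_pow_eq (Equiv.Perm.mem_support.mp hy0)
    (Equiv.Perm.mem_support.mp hh0)
  refine ⟨i % 3, Nat.mod_lt _ (by norm_num), fun y hy => ?_⟩
  obtain ⟨j, hj⟩ := hcyc.exists_pow_eq (Equiv.Perm.mem_support.mp hy0)
    (Equiv.Perm.mem_support.mp hy)
  rw [pow_mod3 s hs, ← hj, happn, ← hi, ← Equiv.Perm.mul_apply, ← Equiv.Perm.mul_apply,
    ← pow_add, ← pow_add, add_comm]

theorem pow_fix {Ω : Type} [Fintype Ω] [DecidableEq Ω] (s : Perm Ω) (z : Ω) (hz : s z = z)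
    (k : ℕ) : (s ^ k) z = z := Equiv.Perm.pow_apply_eq_self_of_apply_eq_self hz k

/-- split off the powers on two disjoint three cycles -/
theorem split_two {Ω : Type} [Fintype Ω] [DecidableEq Ω] (h s t : Perm Ω)
    (hst : Equiv.Perm.Disjoint s t) (i j : ℕ)
    (h1 : ∀ y ∈ s.support, h y = (s ^ i) y) (h2 : ∀ y ∈ t.support, h y = (t ^ j) y) :
    ∃ r : Perm Ω, h = s ^ i * t ^ j * r ∧ Equiv.Perm.Disjoint r s ∧
      Equiv.Perm.Disjoint r t := by
  have hcomm : s ^ i * t ^ j = t ^ j * s ^ i := (hst.commute.pow_pow i j)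
  refine ⟨(s ^ i * t ^ j)⁻¹ * h, by group, ?_, ?_⟩
  · intro z
    by_cases hz : s z = z
    · exact Or.inr hz
    · left
      have htz : t z = z := by
        rcases hst z with h | h
        · exact absurd h hz
        · exact h
      rw [Equiv.Perm.mul_apply, Equiv.Perm.inv_eq_iff_eq, h1 z (Equiv.Perm.mem_support.mpr hz),
        Equiv.Perm.mul_apply, pow_fix t z htz]
  · intro z
    by_cases hz : t z = z
    · exact Or.inr hz
    · left
      have hsz : s z = z := by
        rcases hst z with h | h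
        · exact h
        · exact absurd h hz
      rw [Equiv.Perm.mul_apply, Equiv.Perm.inv_eq_iff_eq, h2 z (Equiv.Perm.mem_support.mpr hz),
        hcomm, Equiv.Perm.mul_apply, pow_fix s z hsz]

theorem conj_split {Ω : Type} [Fintype Ω] [DecidableEq Ω] (s t r w : Perm Ω) (i j : ℕ)
    (hw1 : w * s * w⁻¹ = t) (hw2 : w * t * w⁻¹ = s) (hwr : w * r = r * w) :
    w * (s ^ i * t ^ j * r) * w⁻¹ = t ^ i * s ^ j * r := by
  calc w * (s ^ i * t ^ j * r) * w⁻¹
      = (w * s ^ i * w⁻¹) * (w * t ^ j * w⁻¹) * (w * r * w⁻¹) := by group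
    _ = t ^ i * s ^ j * r := by
        rw [← conj_pow, ← conj_pow, hw1, hw2, hwr, mul_inv_cancel_right]

/-- `w` commutes with `a = s t r` -/
theorem swap_commute {Ω : Type} [Fintype Ω] [DecidableEq Ω] (s t r w a : Perm Ω) (i : ℕ)
    (hst : Equiv.Perm.Disjoint s t)
    (hw1 : w * s * w⁻¹ = t) (hw2 : w * t * w⁻¹ = s) (hwr : w * r = r * w)
    (ha : a = s ^ i * t ^ i * r) : w * a = a * w := by
  have h1 := conj_split s t r w i i hw1 hw2 hwr
  have hcomm : s ^ i * t ^ i = t ^ i * s ^ i := (hst.commute.pow_pow i i)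
  rw [← hcomm, ← ha] at h1
  exact mul_inv_eq_iff_eq_mul.mp h1

theorem zpow_case {G : Type*} [Group G] (R : Subgroup G) (s t r : G) (hst : Commute s t)
    (hs3 : s ^ 3 = 1) (ht3 : t ^ 3 = 1) (i j : ℕ) (hi : i < 3) (hj : j < 3) (hij : i ≠ j)
    (hR : (s ^ i * t ^ j * r) * (t ^ i * s ^ j * r)⁻¹ ∈ R) : s * t⁻¹ ∈ R := by
  have hg : (s ^ i * t ^ j * r) * (t ^ i * s ^ j * r)⁻¹ = (s * t⁻¹) ^ ((i : ℤ) - j) := by
    have e1 : (s ^ i * t ^ j * r) * (t ^ i * s ^ j * r)⁻¹
        = s ^ i * (t ^ j * (s ^ j)⁻¹) * (t ^ i)⁻¹ := by group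
    have hc : t ^ j * (s ^ j)⁻¹ = (s ^ j)⁻¹ * t ^ j :=
      ((hst.symm.pow_pow j j).inv_right).eq
    rw [e1, hc, (hst.inv_right).mul_zpow]
    rw [zpow_sub, zpow_sub, inv_zpow, inv_zpow]
    simp only [zpow_natCast]
    rw [inv_inv]
    have hc2 : (t ^ j) * (t ^ i)⁻¹ = (t ^ i)⁻¹ * t ^ j := by
      rw [← zpow_natCast, ← zpow_natCast, ← zpow_neg, ← zpow_add, ← zpow_add, add_comm]
    calc s ^ i * ((s ^ j)⁻¹ * t ^ j) * (t ^ i)⁻¹
        = s ^ i * (s ^ j)⁻¹ * (t ^ j * (t ^ i)⁻¹) := by group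
      _ = s ^ i * (s ^ j)⁻¹ * ((t ^ i)⁻¹ * t ^ j) := by rw [hc2]
  rw [hg] at hR
  have hu3 : (s * t⁻¹) ^ 3 = 1 := by
    rw [(hst.inv_right).mul_pow, hs3, inv_pow, ht3]; simp
  have hfin : s * t⁻¹ = ((s * t⁻¹) ^ ((i : ℤ) - j)) ^ ((i : ℤ) - j) := by
    generalize s * t⁻¹ = u at hu3
    rw [← zpow_mul]
    have h4 : u ^ (4 : ℤ) = u := by
      have : u ^ (4 : ℤ) = u ^ 3 * u := by
        rw [show (4 : ℤ) = ((3 + 1 : ℕ) : ℤ) by norm_num, zpow_natCast, pow_succ]
      rw [this, hu3, one_mul]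
    have h4n : u ^ (4 : ℕ) = u := by
      rw [show (4 : ℕ) = 3 + 1 by norm_num, pow_succ, hu3, one_mul]
    interval_cases i <;> interval_cases j <;> first | (exact absurd rfl hij) | skip
    all_goals norm_num
    all_goals first | exact h4.symm | exact h4n.symm
  rw [hfin]
  exact Subgroup.zpow_mem R hR _

theorem pf_ka1 : T_CF → T_SWX → T_KA1 := by
  intro hCF hSWX Ω _ _ a h ha3 hah hsupp R hhR hRn
  obtain ⟨hF3, hFcard, hFT⟩ := hCF Ω a ha3
  by_cases hA : ∃ σ ∈ a.cycleFactorsFinset, h * σ * h⁻¹ ≠ σ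
  · left
    obtain ⟨σ, hσ, hne⟩ := hA
    have hconj : h * a * h⁻¹ = a := by rw [← hah, mul_inv_cancel_right]
    have hτ : h * σ * h⁻¹ ∈ a.cycleFactorsFinset := by
      have := (Equiv.Perm.mem_cycleFactorsFinset_conj a h σ).mpr hσ
      rwa [hconj] at this
    refine ⟨h * σ * h⁻¹, hτ, σ, hσ, hne, ?_⟩
    have h1 : σ * h⁻¹ * σ⁻¹ ∈ R :=
      hRn σ (hF3 σ hσ).mem_alternatingGroup
        (Equiv.Perm.self_mem_cycle_factors_commute hσ).symm.eq _ (R.inv_mem hhR)
    have h2 := R.mul_mem hhR h1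
    have e : h * (σ * h⁻¹ * σ⁻¹) = h * σ * h⁻¹ * σ⁻¹ := by group
    rwa [e] at h2
  · push Not at hA
    have hcom : ∀ σ ∈ a.cycleFactorsFinset, h * σ = σ * h := fun σ hσ =>
      mul_inv_eq_iff_eq_mul.mp (hA σ hσ)
    have hk0 : ∀ σ : Perm Ω, ∃ k, σ ∈ a.cycleFactorsFinset →
        k < 3 ∧ ∀ y ∈ σ.support, h y = (σ ^ k) y := by
      intro σ
      by_cases hσ : σ ∈ a.cycleFactorsFinset
      · obtain ⟨k, hk, hk2⟩ := factor_pow h σ (hF3 σ hσ) (hcom σ hσ)
        exact ⟨k, fun _ => ⟨hk, hk2⟩⟩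
      · exact ⟨0, fun hh => absurd hh hσ⟩
    choose k hk using hk0
    have hdisj : ∀ σ ∈ a.cycleFactorsFinset, ∀ τ ∈ a.cycleFactorsFinset, σ ≠ τ →
        Equiv.Perm.Disjoint σ τ := fun σ hσ τ hτ hne =>
      Equiv.Perm.cycleFactorsFinset_pairwise_disjoint a hσ hτ hne
    by_cases hB : ∃ s ∈ a.cycleFactorsFinset, ∃ t ∈ a.cycleFactorsFinset, k s ≠ k t
    · left
      obtain ⟨s, hs, t, ht, hkst⟩ := hB
      have hst : s ≠ t := fun e => hkst (by rw [e])
      -- pigeonhole
      obtain ⟨s', hs'F, t', ht'F, hs't', hkk, hs's, hs't, ht's, ht't⟩ :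
          ∃ s' ∈ a.cycleFactorsFinset, ∃ t' ∈ a.cycleFactorsFinset, s' ≠ t' ∧
            k s' = k t' ∧ s' ≠ s ∧ s' ≠ t ∧ t' ≠ s ∧ t' ≠ t := by
        have hc4 : 4 ≤ ((a.cycleFactorsFinset.erase s).erase t).card := by
          rw [Finset.card_erase_of_mem (Finset.mem_erase.mpr ⟨hst.symm, ht⟩),
            Finset.card_erase_of_mem hs]
          omega
        have hmaps : ∀ x ∈ (a.cycleFactorsFinset.erase s).erase t,
            k x ∈ Finset.range 3 := by
          intro x hx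
          rw [Finset.mem_range]
          exact (hk x (Finset.mem_of_mem_erase (Finset.mem_of_mem_erase hx))).1
        obtain ⟨x, hx, y, hy, hxy, hkxy⟩ := Finset.exists_ne_map_eq_of_card_lt_of_maps_to
          (by rw [Finset.card_range]; omega) hmaps
        rw [Finset.mem_erase, Finset.mem_erase] at hx hy
        exact ⟨x, hx.2.2, y, hy.2.2, hxy, hkxy, hx.2.1, hx.1, hy.2.1, hy.1⟩
      have dst := hdisj s hs t ht hst
      have ds't' := hdisj s' hs'F t' ht'F hs't'
      have ds's := hdisj s' hs'F s hs hs's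
      have ds't := hdisj s' hs'F t ht hs't
      have dt's := hdisj t' ht'F s hs ht's
      have dt't := hdisj t' ht'F t ht ht't
      obtain ⟨w, hw0, hw2, hwst, hwts, hwc⟩ := hSWX Ω s t (hF3 s hs) (hF3 t ht) dst
      obtain ⟨w', hw'0, hw'2, hw'st, hw'ts, hw'c⟩ :=
        hSWX Ω s' t' (hF3 s' hs'F) (hF3 t' ht'F) ds't'
      obtain ⟨b, hb3, hbT, hbx, hbl⟩ := hFT {s, t, s', t'} (by
        intro x hx
        simp only [Finset.mem_insert, Finset.mem_singleton] at hx
        rcases hx with rfl | rfl | rfl | rfl <;> assumption)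
      have hbs : Equiv.Perm.Disjoint b s := hbT s (by simp)
      have hbt : Equiv.Perm.Disjoint b t := hbT t (by simp)
      have hbs' : Equiv.Perm.Disjoint b s' := hbT s' (by simp)
      have hbt' : Equiv.Perm.Disjoint b t' := hbT t' (by simp)
      have ea1 : a = s ^ 1 * t ^ 1 * (s' * t' * b) := by
        have h1 := hbl [s, t, s', t'] (by
          simp only [List.nodup_cons, List.mem_cons, List.not_mem_nil, or_false, not_or,
            List.nodup_nil, and_true, not_false_eq_true]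
          exact ⟨⟨hst, hs's.symm, ht's.symm⟩, ⟨hs't.symm, ht't.symm⟩, hs't'⟩) (by
          ext x; simp)
        rw [h1]
        simp only [List.prod_cons, List.prod_nil, mul_one, pow_one, mul_assoc]
      have ea2 : a = s' ^ 1 * t' ^ 1 * (s * t * b) := by
        have h1 := hbl [s', t', s, t] (by
          simp only [List.nodup_cons, List.mem_cons, List.not_mem_nil, or_false, not_or,
            List.nodup_nil, and_true, not_false_eq_true]
          exact ⟨⟨hs't', hs's, hs't⟩, ⟨ht's, ht't⟩, hst⟩) (by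
          ext x; simp only [List.mem_toFinset, List.mem_cons, List.not_mem_nil, or_false,
            Finset.mem_insert, Finset.mem_singleton]; tauto)
        rw [h1]
        simp only [List.prod_cons, List.prod_nil, mul_one, pow_one, mul_assoc]
      have hr1s : Equiv.Perm.Disjoint (s' * t' * b) s := (ds's.mul_left dt's).mul_left hbs
      have hr1t : Equiv.Perm.Disjoint (s' * t' * b) t := (ds't.mul_left dt't).mul_left hbt
      have hr2s : Equiv.Perm.Disjoint (s * t * b) s' :=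
        (ds's.symm.mul_left ds't.symm).mul_left hbs'
      have hr2t : Equiv.Perm.Disjoint (s * t * b) t' :=
        (dt's.symm.mul_left dt't.symm).mul_left hbt'
      have hwa : w * a = a * w :=
        swap_commute s t (s' * t' * b) w a 1 dst hwst hwts (hwc _ hr1s hr1t) ea1
      have hw'a : w' * a = a * w' :=
        swap_commute s' t' (s * t * b) w' a 1 ds't' hw'st hw'ts (hw'c _ hr2s hr2t) ea2
      obtain ⟨r3, eh3, hr3s, hr3t⟩ := split_two h s t dst (k s) (k t) (hk s hs).2 (hk t ht).2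
      obtain ⟨r4, eh4, hr4s, hr4t⟩ := split_two h s' t' ds't' (k s') (k t') (hk s' hs'F).2
        (hk t' ht'F).2
      have hw'h : w' * h = h * w' := by
        rw [← hkk] at eh4
        exact swap_commute s' t' r4 w' h (k s') ds't' hw'st hw'ts (hw'c _ hr4s hr4t) eh4
      have hwh : w * h * w⁻¹ = t ^ (k s) * s ^ (k t) * r3 := by
        conv_lhs => rw [eh3]
        exact conj_split s t r3 w (k s) (k t) hwst hwts (hwc _ hr3s hr3t)
      have hxA : w * w' ∈ alternatingGroup Ω := by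
        rw [Equiv.Perm.mem_alternatingGroup, map_mul, hw0, hw'0]; norm_num
      have hxa : a * (w * w') = (w * w') * a := by
        rw [← mul_assoc, ← hwa, mul_assoc, ← hw'a, mul_assoc]
      have h5 := hRn (w * w') hxA hxa _ (R.inv_mem hhR)
      have h6 := R.mul_mem hhR h5
      have h7 : (w * w') * h⁻¹ * (w * w')⁻¹ = (t ^ (k s) * s ^ (k t) * r3)⁻¹ := by
        rw [← hwh]
        have e8 : w' * h⁻¹ * w'⁻¹ = h⁻¹ := by
          rw [mul_inv_eq_iff_eq_mul, eq_comm, inv_mul_eq_iff_eq_mul, ← mul_assoc, ← hw'h,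
            mul_inv_cancel_right]
        calc (w * w') * h⁻¹ * (w * w')⁻¹ = w * (w' * h⁻¹ * w'⁻¹) * w⁻¹ := by group
          _ = w * h⁻¹ * w⁻¹ := by rw [e8]
          _ = (w * h * w⁻¹)⁻¹ := by group
      rw [h7] at h6
      have h8 : (s ^ (k s) * t ^ (k t) * r3) * (t ^ (k s) * s ^ (k t) * r3)⁻¹ ∈ R := by
        rw [← eh3]; exact h6
      exact ⟨s, hs, t, ht, hst, zpow_case R s t r3 dst.commute (pow3_eq_one s (hF3 s hs))
        (pow3_eq_one t (hF3 t ht)) (k s) (k t) (hk s hs).1 (hk t ht).1 hkst h8⟩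
    · push Not at hB
      right
      obtain ⟨s0, hs0⟩ : a.cycleFactorsFinset.Nonempty := by
        rw [← Finset.card_pos]; omega
      refine ⟨(3 - k s0) % 3, Nat.mod_lt _ (by norm_num), fun z => ?_⟩
      by_cases hz : a z = z
      · exact Or.inr hz
      · left
        have hcz : a.cycleOf z ∈ a.cycleFactorsFinset := by
          rw [Equiv.Perm.cycleOf_mem_cycleFactorsFinset_iff]
          exact Equiv.Perm.mem_support.mpr hz
        have hzs : z ∈ (a.cycleOf z).support := by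
          rw [Equiv.Perm.mem_support, Equiv.Perm.cycleOf_apply_self]; exact hz
        have hks : k (a.cycleOf z) = k s0 := hB _ hcz _ hs0
        have e1 : (a ^ ((3 - k s0) % 3)) z = ((a.cycleOf z) ^ ((3 - k s0) % 3)) z :=
          (Equiv.Perm.cycleOf_pow_apply_self a z _).symm
        have hzs2 : ((a.cycleOf z) ^ ((3 - k s0) % 3)) z ∈ (a.cycleOf z).support := by
          rw [Equiv.Perm.pow_apply_mem_support]; exact hzs
        rw [Equiv.Perm.mul_apply, e1, (hk _ hcz).2 _ hzs2, hks, pow_mod3 _ (hF3 _ hcz),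
          ← Equiv.Perm.mul_apply, ← pow_add]
        have hlt := (hk s0 hs0).1
        rw [show k s0 + (3 - k s0) = 3 by omega, pow3_eq_one _ (hF3 _ hcz)]
        rfl

end Pool.Agent.H67.NS
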