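import Pool.Agent.H11.NS.Targets

/-!
# Module KA2 of the board ns_modules (MP_9b2842_al)

Three cycles disjoint from `a` in a subgroup normalised by the even centralizer of `a`.
-/

set_option autoImplicit false
set_option linter.unusedVariables false

open Equiv (Perm)

namespace Pool.Agent.H67.NS

open Pool.Agent.H11.NS

/-- a permutation disjoint from `a` comes from the fixed points of `a` -/
theorem exists_ofSubtype {Ω : Type} [Fintype Ω] [DecidableEq Ω] (a x : Perm Ω)
    (hx : Equiv.Perm.Disjoint x a) :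
    ∃ y : Perm {z : Ω // a z = z}, Equiv.Perm.ofSubtype y = x := by
  have hc : x * a = a * x := hx.commute
  have h1 : ∀ z, (a (x z) = x z) ↔ (a z = z) := by
    intro z
    have h2 : a (x z) = x (a z) := by
      rw [← Equiv.Perm.mul_apply, ← hc, Equiv.Perm.mul_apply]
    rw [h2]
    exact x.injective.eq_iff
  refine ⟨x.subtypePerm h1, Equiv.Perm.ofSubtype_subtypePerm h1 ?_⟩
  intro z hz
  rcases hx z with h | h
  · exact absurd h hz
  · exact h

theorem ofSubtype_disjoint {Ω : Type} [Fintype Ω] [DecidableEq Ω] (a : Perm Ω)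
    (y : Perm {z : Ω // a z = z}) : Equiv.Perm.Disjoint (Equiv.Perm.ofSubtype y) a := by
  intro z
  by_cases h : a z = z
  · exact Or.inr h
  · exact Or.inl (Equiv.Perm.ofSubtype_apply_of_not_mem y h)

theorem pf_ka2 : T_KA2 := by
  intro Ω _ _ a k R hkR hkA hdis hcard hRn ρ hρ3 hρdis
  have hsub : k.support ⊆ Finset.univ.filter (fun z => a z = z) := by
    intro z hz
    rw [Equiv.Perm.mem_support] at hz
    rcases hdis z with h | h
    · exact absurd h hz
    · simp [h]
  have hP : 5 ≤ Nat.card {z : Ω // a z = z} := by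
    rw [Nat.card_eq_fintype_card, Fintype.card_subtype]
    exact le_trans hcard (Finset.card_le_card hsub)
  have hsimple : IsSimpleGroup (alternatingGroup {z : Ω // a z = z}) :=
    alternatingGroup.isSimpleGroup hP
  let ι : alternatingGroup {z : Ω // a z = z} →* Perm Ω :=
    (Equiv.Perm.ofSubtype).comp (alternatingGroup {z : Ω // a z = z}).subtype
  have hι : ∀ y, ι y = Equiv.Perm.ofSubtype (y : Perm {z : Ω // a z = z}) := fun y => rfl
  have hnorm : (R.comap ι).Normal := by
    refine ⟨fun n hn g => ?_⟩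
    rw [Subgroup.mem_comap] at hn ⊢
    rw [map_mul, map_mul, map_inv]
    refine hRn (ι g) ?_ ?_ (ι n) hn
    · rw [Equiv.Perm.mem_alternatingGroup, hι, Equiv.Perm.sign_ofSubtype]
      exact Equiv.Perm.mem_alternatingGroup.mp g.2
    · rw [hι]
      exact (ofSubtype_disjoint a _).commute.symm
  have hlift : ∀ x : Perm Ω, x ∈ alternatingGroup Ω → Equiv.Perm.Disjoint x a →
      ∃ y : alternatingGroup {z : Ω // a z = z}, ι y = x := by
    intro x hx hxa
    obtain ⟨y, hy⟩ := exists_ofSubtype a x hxa
    refine ⟨⟨y, ?_⟩, hy⟩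
    rw [Equiv.Perm.mem_alternatingGroup, ← Equiv.Perm.sign_ofSubtype y, hy]
    exact Equiv.Perm.mem_alternatingGroup.mp hx
  rcases hnorm.eq_bot_or_eq_top with hbot | htop
  · exfalso
    obtain ⟨y, hy⟩ := hlift k hkA hdis
    have hmem : y ∈ R.comap ι := by
      rw [Subgroup.mem_comap, hy]; exact hkR
    rw [hbot, Subgroup.mem_bot] at hmem
    rw [hmem, map_one] at hy
    rw [← hy, Equiv.Perm.support_one] at hcard
    simp at hcard
  · obtain ⟨y, hy⟩ := hlift ρ hρ3.mem_alternatingGroup hρdis
    have hmem : y ∈ R.comap ι := by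
      rw [htop]; exact Subgroup.mem_top y
    rw [Subgroup.mem_comap, hy] at hmem
    exact hmem

end Pool.Agent.H67.NS
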